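import Mathlib

/-!
# Voronovskaja estimate for complex bivariate Bernstein polynomials on the simplex

For `f(w₁, w₂) = ∑ a_{kj} w₁^k w₂^j` on the polydisc of radii `R₁, R₂ > 1` and `1 ≤ ρ_i < R_i` the
remainder `E_n(f)` is at most `C n^(-2)` on the closed polydisc of radii `ρ₁, ρ₂`.

Proof. `B_n(w₁^k w₂^j) = ∑ S(k,p) S(j,q) (n)_{p+q} n^(-k-j) w₁^p w₂^q` with the Stirling numbers of
the second kind. Comparison of the coefficients gives `|E_n(w₁^k w₂^j)| ≤ 3 γ² ρ₁^k ρ₂^j`, with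
`γ = (k+j)(k+j-1)/(2n)`.
-/

set_option autoImplicit false

open Finset Filter Topology

namespace Pool.Agent.Results.MP_814f17_an.Voronovskaja

/-- The bivariate Bernstein polynomial on the simplex, at complex arguments. -/
noncomputable def bernstein (n : ℕ) (f : ℂ → ℂ → ℂ) (w₁ w₂ : ℂ) : ℂ :=
  ∑ k ∈ range (n + 1), ∑ j ∈ range (n - k + 1),
    ((n.factorial : ℂ) / (k.factorial * j.factorial * (n - k - j).factorial)) *
      w₁ ^ k * w₂ ^ j * (1 - w₁ - w₂) ^ (n - k - j) * f (k / n) (j / n)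

/-- The remainder `E_n(f)`, with the second complex partial derivatives of `f`. -/
noncomputable def remainder (n : ℕ) (f : ℂ → ℂ → ℂ) (w₁ w₂ : ℂ) : ℂ :=
  bernstein n f w₁ w₂ - f w₁ w₂ - 1 / (2 * (n : ℂ)) *
    (w₁ * (1 - w₁) * deriv (fun s => deriv (fun t => f t w₂) s) w₁
      - 2 * w₁ * w₂ * deriv (fun t => deriv (fun s => f s t) w₁) w₂
      + w₂ * (1 - w₂) * deriv (fun s => deriv (fun t => f w₁ t) s) w₂)

/-! ## Stirling numbers and factorial moments -/

/-- Stirling numbers of the second kind -/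
def st : ℕ → ℕ → ℕ
  | 0, 0 => 1
  | 0, _ + 1 => 0
  | _ + 1, 0 => 0
  | k + 1, p + 1 => (p + 1) * st k (p + 1) + st k p

lemma st_gt : ∀ (k p : ℕ), k < p → st k p = 0
  | 0, 0, h => absurd h (lt_irrefl _)
  | 0, p + 1, _ => rfl
  | k + 1, 0, h => absurd h (Nat.not_lt_zero _)
  | k + 1, p + 1, h => by
    rw [st, st_gt k (p + 1) (by omega), st_gt k p (by omega), mul_zero]

lemma st_self : ∀ k : ℕ, st k k = 1
  | 0 => rfl
  | k + 1 => by rw [st, st_gt k (k + 1) (by omega), st_self k, mul_zero, zero_add]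

lemma st_pred : ∀ k : ℕ, st (k + 1) k * 2 = k * (k + 1)
  | 0 => rfl
  | k + 1 => by
    rw [st, st_self, mul_one, add_mul, st_pred k]
    ring

lemma mul_desc (x p : ℕ) : x * x.descFactorial p = x.descFactorial (p + 1) + p * x.descFactorial p := by
  rw [Nat.descFactorial_succ]
  rcases le_or_gt p x with h | h
  · rw [← add_mul, Nat.sub_add_cancel h]
  · rw [Nat.descFactorial_of_lt h]; simp

lemma pow_eq (x k : ℕ) : x ^ k = ∑ p ∈ range (k + 1), st k p * x.descFactorial p := by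
  induction k with
  | zero => simp [st]
  | succ k ih =>
    rw [pow_succ, ih, Finset.sum_mul, Finset.sum_range_succ' (fun p => st (k + 1) p * _)]
    simp only [st, zero_mul, add_zero]
    have h1 : ∑ p ∈ range (k + 1), st k p * x.descFactorial p * x =
        ∑ p ∈ range (k + 1), st k p * x.descFactorial (p + 1) +
        ∑ p ∈ range (k + 1), p * st k p * x.descFactorial p := by
      rw [← Finset.sum_add_distrib]
      apply Finset.sum_congr rfl
      intro p _
      have := mul_desc x p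
      calc _ = st k p * (x * x.descFactorial p) := by ring
        _ = _ := by rw [this]; ring
    have h2 : ∑ p ∈ range (k + 1), p * st k p * x.descFactorial p =
        ∑ p ∈ range (k + 1), (p + 1) * st k (p + 1) * x.descFactorial (p + 1) := by
      rw [Finset.sum_range_succ' (fun p => p * st k p * x.descFactorial p),
        Finset.sum_range_succ (fun p => (p + 1) * st k (p + 1) * x.descFactorial (p + 1)),
        st_gt k (k + 1) (by omega)]
      simp
    rw [h1, h2, ← Finset.sum_add_distrib]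
    apply Finset.sum_congr rfl
    intro p _
    ring

/-- univariate factorial moments -/
lemma moment_one (q : ℕ) : ∀ (N : ℕ) (y z : ℂ), ∑ b ∈ range (N + 1),
    (N.choose b : ℂ) * (b.descFactorial q : ℂ) * y ^ b * z ^ (N - b) =
      (N.descFactorial q : ℂ) * y ^ q * (y + z) ^ (N - q) := by
  induction q with
  | zero =>
    intro N y z
    simp only [Nat.descFactorial_zero, Nat.cast_one, mul_one, pow_zero, one_mul, Nat.sub_zero]
    rw [add_pow]
    apply Finset.sum_congr rfl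
    intro b _
    ring
  | succ q ih =>
    intro N y z
    cases N with
    | zero => simp
    | succ N =>
      rw [Finset.sum_range_succ']
      simp only [Nat.zero_descFactorial_succ, Nat.cast_zero, mul_zero, zero_mul, add_zero]
      rw [Nat.succ_descFactorial_succ, Nat.add_sub_add_right]
      have h1 : ∀ b ∈ range (N + 1), ((N + 1).choose (b + 1) : ℂ) *
          ((b + 1).descFactorial (q + 1) : ℂ) * y ^ (b + 1) * z ^ (N + 1 - (b + 1)) =
          ((N + 1 : ℕ) : ℂ) * y * ((N.choose b : ℂ) * (b.descFactorial q : ℂ) * y ^ b * z ^ (N - b)) := by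
        intro b _
        rw [Nat.succ_descFactorial_succ, Nat.add_sub_add_right]
        have h2 : (((N + 1).choose (b + 1) : ℕ) : ℂ) * ((b + 1 : ℕ) : ℂ) =
            ((N + 1 : ℕ) : ℂ) * (N.choose b : ℂ) := by
          have := Nat.add_one_mul_choose_eq N b
          exact_mod_cast this.symm
        push_cast at h2 ⊢
        calc _ = (((N + 1).choose (b + 1) : ℂ) * ((b : ℂ) + 1)) * (b.descFactorial q : ℂ) *
              y ^ (b + 1) * z ^ (N - b) := by ring
          _ = _ := by rw [h2]; ring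
      rw [Finset.sum_congr rfl h1, ← Finset.mul_sum, ih]
      push_cast
      ring

/-- mixed factorial moments, outer sum -/
lemma moment_two (p q : ℕ) : ∀ (n : ℕ) (x s : ℂ), ∑ a ∈ range (n + 1),
    (n.choose a : ℂ) * (a.descFactorial p : ℂ) * ((n - a).descFactorial q : ℂ) * x ^ a *
      s ^ (n - a - q) = (n.descFactorial (p + q) : ℂ) * x ^ p * (x + s) ^ (n - (p + q)) := by
  induction q with
  | zero =>
    intro n x s
    simp only [Nat.descFactorial_zero, Nat.cast_one, mul_one, Nat.sub_zero, add_zero]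
    exact moment_one p n x s
  | succ q ih =>
    intro n x s
    cases n with
    | zero =>
      simp [← Nat.add_assoc]
    | succ n =>
      rw [Finset.sum_range_succ]
      have h0 : n + 1 - (n + 1) = 0 := by omega
      rw [h0, Nat.zero_descFactorial_succ]
      simp only [Nat.cast_zero, mul_zero, zero_mul, add_zero]
      rw [← Nat.add_assoc p q 1, Nat.succ_descFactorial_succ, Nat.add_sub_add_right]
      have h1 : ∀ a ∈ range (n + 1), ((n + 1).choose a : ℂ) * (a.descFactorial p : ℂ) *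
          ((n + 1 - a).descFactorial (q + 1) : ℂ) * x ^ a * s ^ (n + 1 - a - (q + 1)) =
          ((n + 1 : ℕ) : ℂ) * ((n.choose a : ℂ) * (a.descFactorial p : ℂ) *
            ((n - a).descFactorial q : ℂ) * x ^ a * s ^ (n - a - q)) := by
        intro a ha
        have ha' : a ≤ n := Nat.lt_succ_iff.1 (Finset.mem_range.1 ha)
        have e1 : n + 1 - a = (n - a) + 1 := by omega
        have h2 : (((n + 1).choose a : ℕ) : ℂ) * (((n - a) + 1 : ℕ) : ℂ) =
            ((n + 1 : ℕ) : ℂ) * (n.choose a : ℂ) := by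
          have h3 := Nat.choose_mul_succ_eq n a
          rw [e1] at h3
          have h4 : (n + 1).choose a * (n - a + 1) = (n + 1) * n.choose a := by
            rw [← h3, mul_comm]
          exact_mod_cast h4
        rw [e1, Nat.succ_descFactorial_succ, Nat.add_sub_add_right, Nat.cast_mul]
        calc _ = (((n + 1).choose a : ℂ) * (((n - a) + 1 : ℕ) : ℂ)) * (a.descFactorial p : ℂ) *
              ((n - a).descFactorial q : ℂ) * x ^ a * s ^ (n - a - q) := by ring
          _ = _ := by rw [h2]; ring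
      rw [Finset.sum_congr rfl h1, ← Finset.mul_sum, ih]
      push_cast
      ring

/-- the multinomial coefficient -/
lemma multi {n a b : ℕ} (ha : a ≤ n) (hb : b ≤ n - a) :
    (n.factorial : ℂ) / (a.factorial * b.factorial * (n - a - b).factorial) =
      (n.choose a : ℂ) * ((n - a).choose b : ℂ) := by
  have h1 := Nat.choose_mul_factorial_mul_factorial ha
  have h2 := Nat.choose_mul_factorial_mul_factorial hb
  have hne : ∀ m : ℕ, (m.factorial : ℂ) ≠ 0 := fun m => Nat.cast_ne_zero.2 (Nat.factorial_ne_zero m)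
  rw [div_eq_iff (mul_ne_zero (mul_ne_zero (hne _) (hne _)) (hne _))]
  have h3 : n.factorial = n.choose a * (n - a).choose b *
      (a.factorial * b.factorial * (n - a - b).factorial) := by
    calc n.factorial = n.choose a * a.factorial * (n - a).factorial := h1.symm
      _ = n.choose a * a.factorial * ((n - a).choose b * b.factorial * (n - a - b).factorial) := by
        rw [h2]
      _ = _ := by ring
  exact_mod_cast h3

/-- mixed factorial moments -/
lemma moment (n p q : ℕ) (x y : ℂ) : ∑ a ∈ range (n + 1), ∑ b ∈ range (n - a + 1),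
    ((n.factorial : ℂ) / (a.factorial * b.factorial * (n - a - b).factorial)) *
      x ^ a * y ^ b * (1 - x - y) ^ (n - a - b) *
      ((a.descFactorial p : ℂ) * (b.descFactorial q : ℂ)) =
      (n.descFactorial (p + q) : ℂ) * x ^ p * y ^ q := by
  have h1 : ∀ a ∈ range (n + 1), ∑ b ∈ range (n - a + 1),
      ((n.factorial : ℂ) / (a.factorial * b.factorial * (n - a - b).factorial)) *
      x ^ a * y ^ b * (1 - x - y) ^ (n - a - b) *
      ((a.descFactorial p : ℂ) * (b.descFactorial q : ℂ)) =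
      y ^ q * ((n.choose a : ℂ) * (a.descFactorial p : ℂ) * ((n - a).descFactorial q : ℂ) * x ^ a *
      (y + (1 - x - y)) ^ (n - a - q)) := by
    intro a ha
    have ha' : a ≤ n := Nat.lt_succ_iff.1 (Finset.mem_range.1 ha)
    have h2 := moment_one q (n - a) y (1 - x - y)
    calc _ = ∑ b ∈ range (n - a + 1), ((n.choose a : ℂ) * (a.descFactorial p : ℂ) * x ^ a) *
          (((n - a).choose b : ℂ) * (b.descFactorial q : ℂ) * y ^ b * (1 - x - y) ^ (n - a - b)) := by
          apply Finset.sum_congr rfl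
          intro b hb
          have hb' : b ≤ n - a := Nat.lt_succ_iff.1 (Finset.mem_range.1 hb)
          rw [multi ha' hb']
          ring
      _ = _ := by rw [← Finset.mul_sum, h2]; ring
  rw [Finset.sum_congr rfl h1, ← Finset.mul_sum, moment_two]
  have h3 : x + (y + (1 - x - y)) = 1 := by ring
  rw [h3, one_pow, mul_one]
  ring

/-- the Bernstein polynomials of the monomials -/
lemma bernstein_monomial (n k j : ℕ) (x y : ℂ) :
    bernstein n (fun s t => s ^ k * t ^ j) x y =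
      ∑ p ∈ range (k + 1), ∑ q ∈ range (j + 1),
        ((st k p * st j q * n.descFactorial (p + q) : ℕ) : ℂ) / (n : ℂ) ^ (k + j) * x ^ p * y ^ q := by
  unfold bernstein
  have h1 : ∀ a b : ℕ, ((a : ℂ) / n) ^ k * ((b : ℂ) / n) ^ j =
      ∑ p ∈ range (k + 1), ∑ q ∈ range (j + 1), ((st k p * st j q : ℕ) : ℂ) / (n : ℂ) ^ (k + j) *
        ((a.descFactorial p : ℂ) * (b.descFactorial q : ℂ)) := by
    intro a b
    have ha : (a : ℂ) ^ k = ∑ p ∈ range (k + 1), ((st k p * a.descFactorial p : ℕ) : ℂ) := by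
      have := pow_eq a k
      exact_mod_cast this
    have hb : (b : ℂ) ^ j = ∑ p ∈ range (j + 1), ((st j p * b.descFactorial p : ℕ) : ℂ) := by
      have := pow_eq b j
      exact_mod_cast this
    rw [div_pow, div_pow, ha, hb, div_mul_div_comm, ← pow_add, Finset.sum_mul_sum, Finset.sum_div]
    apply Finset.sum_congr rfl
    intro p _
    rw [Finset.sum_div]
    apply Finset.sum_congr rfl
    intro q _
    push_cast
    ring
  simp only [h1, Finset.mul_sum]
  have h2 : ∀ a ∈ range (n + 1), ∑ b ∈ range (n - a + 1), ∑ p ∈ range (k + 1), ∑ q ∈ range (j + 1),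
      ((n.factorial : ℂ) / (a.factorial * b.factorial * (n - a - b).factorial)) *
      x ^ a * y ^ b * (1 - x - y) ^ (n - a - b) * (((st k p * st j q : ℕ) : ℂ) / (n : ℂ) ^ (k + j) *
        ((a.descFactorial p : ℂ) * (b.descFactorial q : ℂ))) =
      ∑ p ∈ range (k + 1), ∑ q ∈ range (j + 1), ∑ b ∈ range (n - a + 1),
      ((n.factorial : ℂ) / (a.factorial * b.factorial * (n - a - b).factorial)) *
      x ^ a * y ^ b * (1 - x - y) ^ (n - a - b) * (((st k p * st j q : ℕ) : ℂ) / (n : ℂ) ^ (k + j) *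
        ((a.descFactorial p : ℂ) * (b.descFactorial q : ℂ))) := by
    intro a _
    rw [Finset.sum_comm]
    apply Finset.sum_congr rfl
    intro p _
    rw [Finset.sum_comm]
  rw [Finset.sum_congr rfl h2, Finset.sum_comm]
  apply Finset.sum_congr rfl
  intro p _
  rw [Finset.sum_comm]
  apply Finset.sum_congr rfl
  intro q _
  have h3 := moment n p q x y
  calc _ = ((st k p * st j q : ℕ) : ℂ) / (n : ℂ) ^ (k + j) *
        ∑ a ∈ range (n + 1), ∑ b ∈ range (n - a + 1),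
    ((n.factorial : ℂ) / (a.factorial * b.factorial * (n - a - b).factorial)) *
      x ^ a * y ^ b * (1 - x - y) ^ (n - a - b) *
      ((a.descFactorial p : ℂ) * (b.descFactorial q : ℂ)) := by
        rw [Finset.mul_sum]
        apply Finset.sum_congr rfl
        intro a _
        rw [Finset.mul_sum]
        apply Finset.sum_congr rfl
        intro b _
        ring
    _ = _ := by
        rw [h3]
        push_cast
        ring

/-! ## Estimates for the coefficients -/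

/-- the ratio `(n)_m / n^m` -/
noncomputable def P (n m : ℕ) : ℝ := (n.descFactorial m : ℝ) / (n : ℝ) ^ m

/-- `m (m - 1) / (2 n)` -/
noncomputable def gam (n m : ℕ) : ℝ := (m : ℝ) * (m - 1) / (2 * n)

lemma gam_nonneg (n m : ℕ) : 0 ≤ gam n m := by
  unfold gam
  cases m with
  | zero => simp
  | succ m => push_cast; rw [add_sub_cancel_right]; positivity

lemma gam_succ {n : ℕ} (hn : 1 ≤ n) (m : ℕ) : gam n (m + 1) = gam n m + (m : ℝ) / n := by
  have : (n : ℝ) ≠ 0 := by positivity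
  unfold gam
  push_cast
  field_simp
  ring

lemma P_nonneg (n m : ℕ) : 0 ≤ P n m := by unfold P; positivity

lemma P_succ {n : ℕ} (hn : 1 ≤ n) (m : ℕ) : P n (m + 1) = P n m * (((n - m : ℕ) : ℝ) / n) := by
  have : (n : ℝ) ≠ 0 := by positivity
  unfold P
  rw [Nat.descFactorial_succ, pow_succ]
  push_cast
  field_simp

lemma P_bounds {n : ℕ} (hn : 1 ≤ n) (m : ℕ) :
    P n m ≤ 1 ∧ 1 - gam n m ≤ P n m ∧ P n m ≤ 1 - gam n m + gam n m ^ 2 := by
  have hn0 : (0 : ℝ) < n := by exact_mod_cast hn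
  induction m with
  | zero => simp [P, gam]
  | succ m ih =>
    obtain ⟨h1, h2, h3⟩ := ih
    have h0 := P_nonneg n m
    have hg := gam_nonneg n m
    rcases le_or_gt m n with h | h
    · have hx : (((n - m : ℕ) : ℝ) / n) = 1 - (m : ℝ) / n := by
        rw [Nat.cast_sub h]; field_simp
      rw [P_succ hn, hx, gam_succ hn]
      set x : ℝ := (m : ℝ) / n with hxd
      have hx0 : 0 ≤ x := by positivity
      have hx1 : x ≤ 1 := by rw [hxd, div_le_one hn0]; exact_mod_cast h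
      refine ⟨?_, ?_, ?_⟩
      · nlinarith
      · nlinarith
      · have h4 : P n m * (1 - x) ≤ (1 - gam n m + gam n m ^ 2) * (1 - x) :=
          mul_le_mul_of_nonneg_right h3 (by linarith)
        nlinarith [mul_nonneg hg hx0, mul_nonneg (mul_nonneg hg hg) hx0, mul_nonneg hx0 hx0]
    · have hz : P n (m + 1) = 0 := by
        unfold P
        rw [Nat.descFactorial_of_lt (by omega)]; simp
      have hbig : 1 ≤ gam n (m + 1) := by
        have hm : (n : ℝ) + 1 ≤ m := by exact_mod_cast h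
        have hn1 : (1 : ℝ) ≤ n := by exact_mod_cast hn
        unfold gam
        push_cast
        rw [le_div_iff₀ (by positivity)]
        nlinarith
      rw [hz]
      refine ⟨by norm_num, by linarith, ?_⟩
      nlinarith

/-- the weights of one variable -/
noncomputable def uu (n k p : ℕ) : ℝ := ((st k p * n.descFactorial p : ℕ) : ℝ) / (n : ℝ) ^ k

lemma uu_nonneg (n k p : ℕ) : 0 ≤ uu n k p := by unfold uu; positivity

lemma sum_uu {n : ℕ} (hn : 1 ≤ n) (k : ℕ) : ∑ p ∈ range (k + 1), uu n k p = 1 := by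
  have hn0 : (n : ℝ) ≠ 0 := by positivity
  unfold uu
  rw [← Finset.sum_div, ← Nat.cast_sum, ← pow_eq, Nat.cast_pow, div_self (pow_ne_zero _ hn0)]

/-- Kronecker delta -/
def dl (a b : ℕ) : ℝ := if a = b then 1 else 0

lemma dl_nonneg (a b : ℕ) : 0 ≤ dl a b := by unfold dl; split_ifs <;> norm_num

lemma sum_dl0 (k : ℕ) (g : ℕ → ℝ) : ∑ p ∈ range (k + 1), dl p k * g p = g k := by
  rw [Finset.sum_eq_single k]
  · simp [dl]
  · intro b _ hb; simp [dl, hb]
  · intro h; exact absurd (Finset.mem_range.2 (Nat.lt_succ_self k)) h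

lemma sum_dl1 (k : ℕ) (g : ℕ → ℝ) : ∑ p ∈ range (k + 1 + 1), dl (p + 1) (k + 1) * g p = g k := by
  rw [Finset.sum_eq_single k]
  · simp [dl]
  · intro b _ hb
    simp [dl, hb]
  · intro h; exact absurd (Finset.mem_range.2 (by omega)) h

lemma sum_dl1_zero (g : ℕ → ℝ) : ∑ p ∈ range (0 + 1), dl (p + 1) 0 * g p = 0 := by
  simp [dl]

lemma uu_top {n : ℕ} (k : ℕ) : uu n k k = P n k := by
  unfold uu P; rw [st_self, one_mul]

lemma uu_pred {n : ℕ} (hn : 1 ≤ n) (k : ℕ) : uu n (k + 1) k = gam n (k + 1) * P n k := by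
  have hn0 : (n : ℝ) ≠ 0 := by positivity
  have h := st_pred k
  have h' : (st (k + 1) k : ℝ) * 2 = k * (k + 1) := by exact_mod_cast h
  have h2 : (st (k + 1) k : ℝ) = k * (k + 1) / 2 := by linarith
  unfold uu P gam
  push_cast
  rw [h2, pow_succ]
  field_simp
  ring

lemma U1_bounds {n : ℕ} (hn : 1 ≤ n) (k : ℕ) :
    gam n k * (1 - gam n k) ≤ ∑ p ∈ range (k + 1), dl (p + 1) k * uu n k p := by
  cases k with
  | zero =>
    rw [sum_dl1_zero]; simp [gam]
  | succ k =>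
    rw [sum_dl1, uu_pred hn]
    have h1 := (P_bounds hn k).2.1
    have h2 := gam_nonneg n (k + 1)
    have h3 := gam_succ hn k
    have h4 : 0 ≤ (k : ℝ) / n := by positivity
    apply mul_le_mul_of_nonneg_left _ h2
    linarith

lemma gam_mono {n : ℕ} (hn : 1 ≤ n) {m m' : ℕ} (h : m ≤ m') : gam n m ≤ gam n m' := by
  induction m', h using Nat.le_induction with
  | base => exact le_rfl
  | succ m' _ ih =>
    rw [gam_succ hn]
    have : 0 ≤ (m' : ℝ) / n := by positivity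
    linarith

lemma gam_add {n : ℕ} (k j : ℕ) : gam n k + gam n j ≤ gam n (k + j) := by
  have h : gam n (k + j) = gam n k + gam n j + (k : ℝ) * j / n := by
    unfold gam
    push_cast
    rcases eq_or_ne (n : ℝ) 0 with h | h
    · simp [h]
    · field_simp; ring
  rw [h]
  have : 0 ≤ (k : ℝ) * j / n := by positivity
  linarith

/-- the coefficients -/
noncomputable def cc (n k j p q : ℕ) : ℝ :=
  ((st k p * st j q * n.descFactorial (p + q) : ℕ) : ℝ) / (n : ℝ) ^ (k + j)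

lemma cc_nonneg (n k j p q : ℕ) : 0 ≤ cc n k j p q := by unfold cc; positivity

lemma desc_add_le (n p q : ℕ) :
    n.descFactorial (p + q) ≤ n.descFactorial p * n.descFactorial q := by
  have h := Nat.descFactorial_mul_descFactorial (n := n) (Nat.le_add_right p q)
  rw [← h, Nat.add_sub_cancel_left, mul_comm]
  exact Nat.mul_le_mul_left _ (Nat.descFactorial_le q (Nat.sub_le n p))

lemma cc_le (n k j p q : ℕ) : cc n k j p q ≤ uu n k p * uu n j q := by
  unfold cc uu
  rw [div_mul_div_comm, ← pow_add]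
  apply div_le_div_of_nonneg_right _ (by positivity)
  have h := desc_add_le n p q
  have h2 : st k p * st j q * n.descFactorial (p + q) ≤
      st k p * n.descFactorial p * (st j q * n.descFactorial q) := by
    calc _ ≤ st k p * st j q * (n.descFactorial p * n.descFactorial q) := Nat.mul_le_mul_left _ h
      _ = _ := by ring
  exact_mod_cast h2

/-- the target coefficients -/
noncomputable def tt (n k j p q : ℕ) : ℝ :=
  (1 - gam n (k + j)) * (dl p k * dl q j) + gam n k * (dl (p + 1) k * dl q j) +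
    gam n j * (dl p k * dl (q + 1) j)

/-- pointwise comparison of the coefficients -/
lemma cc_sub_tt {n : ℕ} (hn : 1 ≤ n) (k j p q : ℕ) : |cc n k j p q - tt n k j p q| ≤
    gam n (k + j) ^ 2 * (dl p k * dl q j) + gam n k * gam n (k + j) * (dl (p + 1) k * dl q j) +
    gam n j * gam n (k + j) * (dl p k * dl (q + 1) j) +
    (uu n k p * uu n j q) * (1 - dl p k * dl q j - dl (p + 1) k * dl q j - dl p k * dl (q + 1) j) := by
  have hn0 : (n : ℝ) ≠ 0 := by positivity
  by_cases h1 : p = k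
  · by_cases h2 : q = j
    · subst h1; subst h2
      have e1 : cc n p q p q = P n (p + q) := by
        unfold cc P; rw [st_self, st_self, one_mul, one_mul]
      have e2 : dl (p + 1) p = 0 := by simp [dl]
      have e3 : dl (q + 1) q = 0 := by simp [dl]
      have e4 : ∀ a, dl a a = 1 := by simp [dl]
      unfold tt
      rw [e1, e2, e3, e4, e4]
      obtain ⟨-, b2, b3⟩ := P_bounds hn (p + q)
      rw [abs_le]
      constructor <;> nlinarith [sq_nonneg (gam n (p + q))]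
    · by_cases h3 : q + 1 = j
      · subst h1; subst h3
        have e1 : cc n p (q + 1) p q = gam n (q + 1) * P n (p + q) := by
          have h := st_pred q
          have h' : (st (q + 1) q : ℝ) * 2 = q * (q + 1) := by exact_mod_cast h
          have h2 : (st (q + 1) q : ℝ) = q * (q + 1) / 2 := by linarith
          unfold cc P gam
          rw [st_self, one_mul]
          push_cast
          rw [h2, ← add_assoc, pow_succ]
          field_simp
          ring
        have e2 : dl (p + 1) p = 0 := by simp [dl]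
        have e3 : dl q (q + 1) = 0 := by simp [dl]
        have e4 : ∀ a, dl a a = 1 := by simp [dl]
        unfold tt
        rw [e1, e2, e3, e4, e4]
        obtain ⟨b1, b2, -⟩ := P_bounds hn (p + q)
        have hg := gam_nonneg n (q + 1)
        have hmono : gam n (p + q) ≤ gam n (p + (q + 1)) := gam_mono hn (by omega)
        rw [abs_le]
        constructor <;> nlinarith [mul_nonneg hg (gam_nonneg n (p + (q + 1))), mul_nonneg hg (sub_nonneg.2 hmono),
          mul_nonneg hg (sub_nonneg.2 b1)]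
      · have e2 : dl q j = 0 := by simp [dl, h2]
        have e3 : dl (q + 1) j = 0 := by simp [dl, h3]
        unfold tt
        rw [e2, e3]
        simp only [mul_zero, add_zero, sub_zero, mul_one, zero_add]
        rw [abs_of_nonneg (cc_nonneg _ _ _ _ _)]
        exact cc_le _ _ _ _ _
  · by_cases h2 : p + 1 = k ∧ q = j
    · obtain ⟨h2, h3⟩ := h2
      subst h2; subst h3
      have e1 : cc n (p + 1) q p q = gam n (p + 1) * P n (p + q) := by
        have h := st_pred p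
        have h' : (st (p + 1) p : ℝ) * 2 = p * (p + 1) := by exact_mod_cast h
        have h2 : (st (p + 1) p : ℝ) = p * (p + 1) / 2 := by linarith
        unfold cc P gam
        rw [st_self, mul_one]
        push_cast
        have e5 : p + 1 + q = (p + q) + 1 := by ring
        rw [h2, e5, pow_succ]
        field_simp
        ring
      have e2 : dl p (p + 1) = 0 := by simp [dl]
      have e4 : ∀ a, dl a a = 1 := by simp [dl]
      unfold tt
      rw [e1, e2, e4, e4]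
      obtain ⟨b1, b2, -⟩ := P_bounds hn (p + q)
      have hg := gam_nonneg n (p + 1)
      have hmono : gam n (p + q) ≤ gam n (p + 1 + q) := gam_mono hn (by omega)
      rw [abs_le]
      constructor <;> nlinarith [mul_nonneg hg (gam_nonneg n (p + 1 + q)), mul_nonneg hg (sub_nonneg.2 hmono),
        mul_nonneg hg (sub_nonneg.2 b1)]
    · have e1 : dl p k = 0 := by simp [dl, h1]
      have e2 : dl (p + 1) k * dl q j = 0 := by
        unfold dl
        by_cases h3 : p + 1 = k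
        · have : q ≠ j := fun h => h2 ⟨h3, h⟩
          simp [this]
        · simp [h3]
      unfold tt
      rw [e1, e2]
      simp only [mul_zero, zero_mul, add_zero, sub_zero, mul_one, zero_add]
      rw [abs_of_nonneg (cc_nonneg _ _ _ _ _)]
      exact cc_le _ _ _ _ _

lemma final_ineq {a b U0 U1 V0 V1 : ℝ} (ha : 0 ≤ a) (hb : 0 ≤ b) (hU0 : 1 - a ≤ U0)
    (hU1 : a * (1 - a) ≤ U1) (hV0 : 1 - b ≤ V0) (hV1 : b * (1 - b) ≤ V1) (h0 : 0 ≤ U0)
    (h1 : 0 ≤ U1) (h2 : 0 ≤ V0) (h3 : 0 ≤ V1) :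
    1 - U0 * V0 - U1 * V0 - U0 * V1 ≤ (a + b) ^ 2 := by
  by_cases hab : a ≤ 1 ∧ b ≤ 1
  · obtain ⟨ha1, hb1⟩ := hab
    have e1 : (1 - a) * (1 - b) ≤ U0 * V0 := mul_le_mul hU0 hV0 (by linarith) h0
    have e2 : (a * (1 - a)) * (1 - b) ≤ U1 * V0 := mul_le_mul hU1 hV0 (by linarith) h1
    have e3 : (1 - a) * (b * (1 - b)) ≤ U0 * V1 :=
      mul_le_mul hU0 hV1 (mul_nonneg hb (by linarith)) h0
    have e4 : 0 ≤ a * b * (1 + a + b) := by positivity
    nlinarith
  · have hge : 1 ≤ (a + b) ^ 2 := by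
      rcases not_and_or.1 hab with h | h
      · push Not at h; nlinarith
      · push Not at h; nlinarith
    have e1 : 0 ≤ U0 * V0 := mul_nonneg h0 h2
    have e2 : 0 ≤ U1 * V0 := mul_nonneg h1 h2
    have e3 : 0 ≤ U0 * V1 := mul_nonneg h0 h3
    linarith

lemma sum_prod (k j : ℕ) (g h : ℕ → ℝ) : ∑ p ∈ range (k + 1), ∑ q ∈ range (j + 1), g p * h q =
    (∑ p ∈ range (k + 1), g p) * ∑ q ∈ range (j + 1), h q := (Finset.sum_mul_sum _ _ _ _).symm

lemma sum_one_dl1 (k : ℕ) : ∑ p ∈ range (k + 1), dl (p + 1) k ≤ 1 := by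
  cases k with
  | zero => simp [dl]
  | succ k =>
    have := sum_dl1 k (fun _ => 1)
    simp only [mul_one] at this
    exact this.le

lemma sum_one_dl0 (k : ℕ) : ∑ p ∈ range (k + 1), dl p k = 1 := by
  have := sum_dl0 k (fun _ => 1)
  simpa only [mul_one] using this

/-- the total error of the coefficients -/
lemma sum_error {n : ℕ} (hn : 1 ≤ n) (k j : ℕ) : ∑ p ∈ range (k + 1), ∑ q ∈ range (j + 1),
    |cc n k j p q - tt n k j p q| ≤ 3 * gam n (k + j) ^ 2 := by
  set γ := gam n (k + j) with hγ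
  set α := gam n k with hα
  set β := gam n j with hβ
  have hα0 : 0 ≤ α := gam_nonneg n k
  have hβ0 : 0 ≤ β := gam_nonneg n j
  have hγ0 : 0 ≤ γ := gam_nonneg n _
  have hαβ : α + β ≤ γ := gam_add k j
  set U1 := ∑ p ∈ range (k + 1), dl (p + 1) k * uu n k p with hU1
  set V1 := ∑ q ∈ range (j + 1), dl (q + 1) j * uu n j q with hV1
  have hU1b : α * (1 - α) ≤ U1 := U1_bounds hn k
  have hV1b : β * (1 - β) ≤ V1 := U1_bounds hn j
  have hU10 : 0 ≤ U1 := Finset.sum_nonneg fun p _ => mul_nonneg (dl_nonneg _ _) (uu_nonneg _ _ _)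
  have hV10 : 0 ≤ V1 := Finset.sum_nonneg fun p _ => mul_nonneg (dl_nonneg _ _) (uu_nonneg _ _ _)
  have hfin := final_ineq (a := α) (b := β) (U0 := P n k) (U1 := U1) (V0 := P n j) (V1 := V1)
    hα0 hβ0 (P_bounds hn k).2.1 hU1b (P_bounds hn j).2.1 hV1b (P_nonneg _ _) hU10 (P_nonneg _ _) hV10
  have hK1 := sum_one_dl1 k
  have hJ1 := sum_one_dl1 j
  have hK10 : 0 ≤ ∑ p ∈ range (k + 1), dl (p + 1) k := Finset.sum_nonneg fun _ _ => dl_nonneg _ _
  have hJ10 : 0 ≤ ∑ p ∈ range (j + 1), dl (p + 1) j := Finset.sum_nonneg fun _ _ => dl_nonneg _ _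
  calc _ ≤ ∑ p ∈ range (k + 1), ∑ q ∈ range (j + 1),
        (γ ^ 2 * (dl p k * dl q j) + α * γ * (dl (p + 1) k * dl q j) +
        β * γ * (dl p k * dl (q + 1) j) +
        (uu n k p * uu n j q) *
          (1 - dl p k * dl q j - dl (p + 1) k * dl q j - dl p k * dl (q + 1) j)) :=
        Finset.sum_le_sum fun p _ => Finset.sum_le_sum fun q _ => cc_sub_tt hn k j p q
    _ = ∑ p ∈ range (k + 1), ∑ q ∈ range (j + 1),
        (γ ^ 2 * (dl p k * dl q j) + α * γ * (dl (p + 1) k * dl q j) +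
        β * γ * (dl p k * dl (q + 1) j) + uu n k p * uu n j q -
        (dl p k * uu n k p) * (dl q j * uu n j q) - (dl (p + 1) k * uu n k p) * (dl q j * uu n j q) -
        (dl p k * uu n k p) * (dl (q + 1) j * uu n j q)) := by
        apply Finset.sum_congr rfl; intro p _; apply Finset.sum_congr rfl; intro q _; ring
    _ = γ ^ 2 * ((∑ p ∈ range (k + 1), dl p k) * ∑ q ∈ range (j + 1), dl q j) +
        α * γ * ((∑ p ∈ range (k + 1), dl (p + 1) k) * ∑ q ∈ range (j + 1), dl q j) +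
        β * γ * ((∑ p ∈ range (k + 1), dl p k) * ∑ q ∈ range (j + 1), dl (q + 1) j) +
        (∑ p ∈ range (k + 1), uu n k p) * (∑ q ∈ range (j + 1), uu n j q) -
        (∑ p ∈ range (k + 1), dl p k * uu n k p) * (∑ q ∈ range (j + 1), dl q j * uu n j q) -
        (∑ p ∈ range (k + 1), dl (p + 1) k * uu n k p) * (∑ q ∈ range (j + 1), dl q j * uu n j q) -
        (∑ p ∈ range (k + 1), dl p k * uu n k p) *
          (∑ q ∈ range (j + 1), dl (q + 1) j * uu n j q) := by
        simp only [Finset.sum_sub_distrib, Finset.sum_add_distrib, ← Finset.mul_sum, ← Finset.sum_mul]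
    _ ≤ 3 * γ ^ 2 := by
        rw [sum_one_dl0, sum_one_dl0, sum_uu hn, sum_uu hn, sum_dl0, sum_dl0, uu_top, uu_top,
          ← hU1, ← hV1]
        have h1 : α * γ * ((∑ p ∈ range (k + 1), dl (p + 1) k) * 1) ≤ α * γ := by
          have : 0 ≤ α * γ := by positivity
          nlinarith
        have h2 : β * γ * (1 * ∑ q ∈ range (j + 1), dl (q + 1) j) ≤ β * γ := by
          have : 0 ≤ β * γ := by positivity
          nlinarith
        have h3 : (α + β) ^ 2 ≤ γ ^ 2 := by nlinarith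
        have h4 : α * γ + β * γ ≤ γ ^ 2 := by nlinarith
        linarith

/-- the second order terms of a monomial, with explicit derivatives -/
noncomputable def DD (k j : ℕ) (x y : ℂ) : ℂ :=
  x * (1 - x) * (k * ((k - 1 : ℕ) * x ^ (k - 1 - 1)) * y ^ j) -
    2 * x * y * (k * x ^ (k - 1) * (j * y ^ (j - 1))) +
    y * (1 - y) * (x ^ k * (j * ((j - 1 : ℕ) * y ^ (j - 1 - 1))))

/-- the remainder of a monomial -/
noncomputable def EE (n k j : ℕ) (x y : ℂ) : ℂ :=
  bernstein n (fun s t => s ^ k * t ^ j) x y - x ^ k * y ^ j - 1 / (2 * (n : ℂ)) * DD k j x y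

lemma aux_dl1 (n k : ℕ) (x : ℂ) : (gam n k : ℂ) * ∑ p ∈ range (k + 1), (dl (p + 1) k : ℂ) * x ^ p =
    1 / (2 * (n : ℂ)) * (x * (k * ((k - 1 : ℕ) * x ^ (k - 1 - 1)))) := by
  cases k with
  | zero => simp [gam]
  | succ k =>
    have h1 : ∑ p ∈ range (k + 1 + 1), (dl (p + 1) (k + 1) : ℂ) * x ^ p = x ^ k := by
      rw [Finset.sum_eq_single k]
      · simp [dl]
      · intro b _ hb; simp [dl, hb]
      · intro h; exact absurd (Finset.mem_range.2 (by omega)) h
    rw [h1]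
    unfold gam
    simp only [Nat.add_sub_cancel]
    have h2 : (k : ℂ) * x ^ k = x * (k * x ^ (k - 1)) := by
      cases k with
      | zero => simp
      | succ k => simp only [Nat.add_sub_cancel]; ring
    push_cast
    calc _ = 1 / (2 * (n : ℂ)) * ((k + 1) * (k * x ^ k)) := by ring
      _ = _ := by rw [h2]; ring

lemma sum_tt (n k j : ℕ) (x y : ℂ) : ∑ p ∈ range (k + 1), ∑ q ∈ range (j + 1),
    (tt n k j p q : ℂ) * x ^ p * y ^ q = x ^ k * y ^ j + 1 / (2 * (n : ℂ)) * DD k j x y := by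
  have h0 : ∀ (k : ℕ) (x : ℂ), ∑ p ∈ range (k + 1), (dl p k : ℂ) * x ^ p = x ^ k := by
    intro k x
    rw [Finset.sum_eq_single k]
    · simp [dl]
    · intro b _ hb; simp [dl, hb]
    · intro h; exact absurd (Finset.mem_range.2 (Nat.lt_succ_self k)) h
  have h1 : ∀ p q, (tt n k j p q : ℂ) * x ^ p * y ^ q =
      (1 - gam n (k + j) : ℂ) * ((dl p k : ℂ) * x ^ p * ((dl q j : ℂ) * y ^ q)) +
      (gam n k : ℂ) * ((dl (p + 1) k : ℂ) * x ^ p * ((dl q j : ℂ) * y ^ q)) +
      (gam n j : ℂ) * ((dl p k : ℂ) * x ^ p * ((dl (q + 1) j : ℂ) * y ^ q)) := by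
    intro p q
    unfold tt
    push_cast
    ring
  simp only [h1, Finset.sum_add_distrib, ← Finset.mul_sum, ← Finset.sum_mul]
  rw [h0, h0]
  have h2 := aux_dl1 n k x
  have h3 := aux_dl1 n j y
  have h4 : (gam n (k + j) : ℂ) * (x ^ k * y ^ j) = 1 / (2 * (n : ℂ)) *
      (x * x * (k * ((k - 1 : ℕ) * x ^ (k - 1 - 1))) * y ^ j +
       2 * (x * (k * x ^ (k - 1))) * (y * (j * y ^ (j - 1))) +
       x ^ k * (y * y * (j * ((j - 1 : ℕ) * y ^ (j - 1 - 1))))) := by
    have a1 : ∀ (k : ℕ) (x : ℂ), x * (k * x ^ (k - 1)) = k * x ^ k := by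
      intro k x
      cases k with
      | zero => simp
      | succ k => simp only [Nat.add_sub_cancel]; ring
    have a2 : ∀ (k : ℕ) (x : ℂ), x * x * (k * ((k - 1 : ℕ) * x ^ (k - 1 - 1))) =
        (k : ℂ) * (k - 1) * x ^ k := by
      intro k x
      cases k with
      | zero => simp
      | succ k =>
        simp only [Nat.add_sub_cancel]
        have := a1 k x
        calc _ = ((k : ℂ) + 1) * x * (x * (k * x ^ (k - 1))) := by push_cast; ring
          _ = _ := by rw [this]; push_cast; ring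
    rw [a1, a1, a2, a2]
    unfold gam
    push_cast
    ring
  calc _ = x ^ k * y ^ j - (gam n (k + j) : ℂ) * (x ^ k * y ^ j) +
        ((gam n k : ℂ) * ∑ p ∈ range (k + 1), (dl (p + 1) k : ℂ) * x ^ p) * y ^ j +
        x ^ k * ((gam n j : ℂ) * ∑ q ∈ range (j + 1), (dl (q + 1) j : ℂ) * y ^ q) := by
        ring
    _ = _ := by
        rw [h2, h3, h4]
        unfold DD
        ring

/-- the estimate for the monomials -/
lemma norm_EE_le {n : ℕ} (hn : 1 ≤ n) (k j : ℕ) {x y : ℂ} {ρ₁ ρ₂ : ℝ} (h1 : 1 ≤ ρ₁) (h2 : 1 ≤ ρ₂)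
    (hx : ‖x‖ ≤ ρ₁) (hy : ‖y‖ ≤ ρ₂) :
    ‖EE n k j x y‖ ≤ 3 * gam n (k + j) ^ 2 * (ρ₁ ^ k * ρ₂ ^ j) := by
  have e1 : EE n k j x y = ∑ p ∈ range (k + 1), ∑ q ∈ range (j + 1),
      ((cc n k j p q - tt n k j p q : ℝ) : ℂ) * x ^ p * y ^ q := by
    have h3 := sum_tt n k j x y
    have h4 : bernstein n (fun s t => s ^ k * t ^ j) x y =
        ∑ p ∈ range (k + 1), ∑ q ∈ range (j + 1), (cc n k j p q : ℂ) * x ^ p * y ^ q := by
      rw [bernstein_monomial]
      apply Finset.sum_congr rfl; intro p _; apply Finset.sum_congr rfl; intro q _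
      unfold cc
      push_cast
      ring
    unfold EE
    rw [h4, sub_sub, ← h3, ← Finset.sum_sub_distrib]
    apply Finset.sum_congr rfl; intro p _
    rw [← Finset.sum_sub_distrib]
    apply Finset.sum_congr rfl; intro q _
    push_cast
    ring
  rw [e1]
  calc _ ≤ ∑ p ∈ range (k + 1), ∑ q ∈ range (j + 1),
        |cc n k j p q - tt n k j p q| * (ρ₁ ^ k * ρ₂ ^ j) := by
        refine (norm_sum_le _ _).trans (Finset.sum_le_sum fun p hp => ?_)
        refine (norm_sum_le _ _).trans (Finset.sum_le_sum fun q hq => ?_)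
        rw [norm_mul, norm_mul, Complex.norm_real, Real.norm_eq_abs, norm_pow, norm_pow, mul_assoc]
        apply mul_le_mul_of_nonneg_left _ (abs_nonneg _)
        have hp' : p ≤ k := Nat.lt_succ_iff.1 (Finset.mem_range.1 hp)
        have hq' : q ≤ j := Nat.lt_succ_iff.1 (Finset.mem_range.1 hq)
        have a1 : ‖x‖ ^ p ≤ ρ₁ ^ k :=
          (pow_le_pow_left₀ (norm_nonneg _) hx p).trans (pow_le_pow_right₀ h1 hp')
        have a2 : ‖y‖ ^ q ≤ ρ₂ ^ j :=
          (pow_le_pow_left₀ (norm_nonneg _) hy q).trans (pow_le_pow_right₀ h2 hq')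
        exact mul_le_mul a1 a2 (by positivity) (by positivity)
    _ = (∑ p ∈ range (k + 1), ∑ q ∈ range (j + 1), |cc n k j p q - tt n k j p q|) *
        (ρ₁ ^ k * ρ₂ ^ j) := by
        simp only [← Finset.sum_mul]
    _ ≤ _ := mul_le_mul_of_nonneg_right (sum_error hn k j) (by positivity)

/-! ## Power series -/

/-- termwise differentiation -/
lemma hasDeriv {ι : Type} (c : ι → ℂ) (e : ι → ℕ) {r : ℝ} (hr : 0 < r)
    (h0 : Summable (fun i => ‖c i‖ * r ^ e i))
    (h1 : Summable (fun i => ‖c i‖ * (e i * r ^ (e i - 1)))) {t : ℂ} (ht : ‖t‖ < r) :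
    HasDerivAt (fun t : ℂ => ∑' i, c i * t ^ e i) (∑' i, c i * (e i * t ^ (e i - 1))) t := by
  refine hasDerivAt_tsum_of_isPreconnected (g := fun i (t : ℂ) => c i * t ^ e i)
    (g' := fun i (t : ℂ) => c i * (e i * t ^ (e i - 1))) (t := Metric.ball (0 : ℂ) r) h1
    Metric.isOpen_ball (convex_ball _ _).isPreconnected ?_ ?_ (y₀ := 0) (by simpa using hr) ?_
    (by simpa using ht)
  · intro i y _
    exact (hasDerivAt_pow (e i) y).const_mul (c i)
  · intro i y hy
    have hy' : ‖y‖ ≤ r := by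
      have : ‖y‖ < r := by simpa using hy
      exact this.le
    rw [norm_mul, norm_mul, norm_pow, Complex.norm_natCast]
    gcongr
  · refine Summable.of_norm_bounded h0 fun i => ?_
    rw [norm_mul, norm_pow, norm_zero]
    apply mul_le_mul_of_nonneg_left _ (norm_nonneg _)
    exact pow_le_pow_left₀ le_rfl hr.le _

/-- polynomial weights are absorbed by a larger radius -/
lemma weight {r s : ℝ} (hr : 0 < r) (hrs : r < s) :
    ∃ C : ℝ, 0 ≤ C ∧ ∀ k : ℕ, ((k : ℝ) + 1) ^ 4 * r ^ k ≤ C * s ^ k := by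
  have hs : 0 < s := hr.trans hrs
  have h1 : Tendsto (fun k : ℕ => ((k : ℝ) + 1) ^ 4 * (r / s) ^ (k + 1)) atTop (𝓝 0) := by
    have h2 := tendsto_pow_const_mul_const_pow_of_abs_lt_one 4 (r := r / s)
      (by rw [abs_of_pos (by positivity)]; exact (div_lt_one hs).2 hrs)
    have h3 := h2.comp (tendsto_add_atTop_nat 1)
    refine h3.congr fun k => ?_
    simp
  obtain ⟨C, hC⟩ := h1.bddAbove_range
  refine ⟨max C 0 * (s / r), by positivity, fun k => ?_⟩
  have h4 : ((k : ℝ) + 1) ^ 4 * (r / s) ^ (k + 1) ≤ C := hC ⟨k, rfl⟩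
  have h5 : ((k : ℝ) + 1) ^ 4 * r ^ k =
      (((k : ℝ) + 1) ^ 4 * (r / s) ^ (k + 1)) * (s / r) * s ^ k := by
    rw [pow_succ, div_pow]; field_simp; ring
  rw [h5]
  have h6 := h4.trans (le_max_left C 0)
  gcongr

lemma natCast_le_weight (k : ℕ) : (k : ℝ) ≤ ((k : ℝ) + 1) ^ 4 := by
  have : (0 : ℝ) ≤ k := Nat.cast_nonneg k
  nlinarith [sq_nonneg ((k : ℝ)), sq_nonneg ((k : ℝ) + 1), sq_nonneg ((k : ℝ) ^ 2)]

lemma one_le_weight (k : ℕ) : (1 : ℝ) ≤ ((k : ℝ) + 1) ^ 4 :=
  one_le_pow₀ (by have : (0 : ℝ) ≤ k := Nat.cast_nonneg k; linarith)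

lemma weight1 {r : ℝ} (hr : 1 ≤ r) (k : ℕ) : (k : ℝ) * r ^ (k - 1) ≤ ((k : ℝ) + 1) ^ 4 * r ^ k := by
  have h1 := natCast_le_weight k
  have h2 : r ^ (k - 1) ≤ r ^ k := pow_le_pow_right₀ hr (Nat.sub_le _ _)
  exact mul_le_mul h1 h2 (by positivity) (by positivity)

lemma weight2 {r : ℝ} (hr : 1 ≤ r) (k : ℕ) :
    (k : ℝ) * (((k - 1 : ℕ) : ℝ) * r ^ (k - 1 - 1)) ≤ ((k : ℝ) + 1) ^ 4 * r ^ k := by
  have h0 : (0 : ℝ) ≤ k := Nat.cast_nonneg k
  have h1 : ((k - 1 : ℕ) : ℝ) ≤ k := by exact_mod_cast Nat.sub_le k 1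
  have h2 : r ^ (k - 1 - 1) ≤ r ^ k := pow_le_pow_right₀ hr (by omega)
  calc (k : ℝ) * (((k - 1 : ℕ) : ℝ) * r ^ (k - 1 - 1)) ≤ k * (k * r ^ k) := by gcongr
    _ = (k * k) * r ^ k := by ring
    _ ≤ _ := by
      apply mul_le_mul_of_nonneg_right _ (by positivity)
      nlinarith [sq_nonneg ((k : ℝ)), sq_nonneg ((k : ℝ) + 1), sq_nonneg ((k : ℝ) ^ 2)]

section series

variable {R₁ R₂ : ℝ} {a : ℕ → ℕ → ℂ} {f : ℂ → ℂ → ℂ}

/-- the master majorant -/
lemma master (hf : ∀ w₁ w₂ : ℂ, ‖w₁‖ < R₁ → ‖w₂‖ < R₂ →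
    HasSum (fun p : ℕ × ℕ => a p.1 p.2 * w₁ ^ p.1 * w₂ ^ p.2) (f w₁ w₂)) {r₁ r₂ : ℝ}
    (hr₁ : 1 ≤ r₁) (hr₁' : r₁ < R₁) (hr₂ : 1 ≤ r₂) (hr₂' : r₂ < R₂) :
    Summable (fun p : ℕ × ℕ => ‖a p.1 p.2‖ * ((((p.1 : ℝ) + 1) ^ 4 * r₁ ^ p.1) *
      (((p.2 : ℝ) + 1) ^ 4 * r₂ ^ p.2))) := by
  obtain ⟨s₁, hs₁, hs₁'⟩ := exists_between hr₁'
  obtain ⟨s₂, hs₂, hs₂'⟩ := exists_between hr₂'
  obtain ⟨C₁, hC₁, hw₁⟩ := weight (by linarith : 0 < r₁) hs₁
  obtain ⟨C₂, hC₂, hw₂⟩ := weight (by linarith : 0 < r₂) hs₂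
  have hs₁0 : 0 < s₁ := by linarith
  have hs₂0 : 0 < s₂ := by linarith
  have h3 := (hf (s₁ : ℂ) (s₂ : ℂ) (by rwa [Complex.norm_real, Real.norm_of_nonneg hs₁0.le])
    (by rwa [Complex.norm_real, Real.norm_of_nonneg hs₂0.le])).summable.norm
  have h4 : ∀ p : ℕ × ℕ, ‖a p.1 p.2 * (s₁ : ℂ) ^ p.1 * (s₂ : ℂ) ^ p.2‖ =
      ‖a p.1 p.2‖ * (s₁ ^ p.1 * s₂ ^ p.2) := by
    intro p
    rw [norm_mul, norm_mul, norm_pow, norm_pow, Complex.norm_real, Complex.norm_real,
      Real.norm_of_nonneg hs₁0.le, Real.norm_of_nonneg hs₂0.le, mul_assoc]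
  simp only [h4] at h3
  refine Summable.of_nonneg_of_le (fun p => by positivity) (fun p => ?_) (h3.mul_left (C₁ * C₂))
  have h5 := mul_le_mul (hw₁ p.1) (hw₂ p.2) (by positivity) (by positivity)
  calc _ ≤ ‖a p.1 p.2‖ * (C₁ * s₁ ^ p.1 * (C₂ * s₂ ^ p.2)) :=
        mul_le_mul_of_nonneg_left h5 (norm_nonneg _)
    _ = _ := by ring

/-- the three second derivatives -/
lemma derivs (hf : ∀ w₁ w₂ : ℂ, ‖w₁‖ < R₁ → ‖w₂‖ < R₂ →
    HasSum (fun p : ℕ × ℕ => a p.1 p.2 * w₁ ^ p.1 * w₂ ^ p.2) (f w₁ w₂)) {x y : ℂ} {r₁ r₂ : ℝ}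
    (hr₁ : 1 ≤ r₁) (hr₁' : r₁ < R₁) (hr₂ : 1 ≤ r₂) (hr₂' : r₂ < R₂) (hx : ‖x‖ < r₁) (hy : ‖y‖ < r₂) :
    deriv (fun s => deriv (fun t => f t y) s) x = ∑' p : ℕ × ℕ, a p.1 p.2 *
      (p.1 * ((p.1 - 1 : ℕ) * x ^ (p.1 - 1 - 1)) * y ^ p.2) ∧
    deriv (fun t => deriv (fun s => f s t) x) y = ∑' p : ℕ × ℕ, a p.1 p.2 *
      (p.1 * x ^ (p.1 - 1) * (p.2 * y ^ (p.2 - 1))) ∧
    deriv (fun s => deriv (fun t => f x t) s) y = ∑' p : ℕ × ℕ, a p.1 p.2 *
      (x ^ p.1 * (p.2 * ((p.2 - 1 : ℕ) * y ^ (p.2 - 1 - 1)))) := by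
  have hM := master hf hr₁ hr₁' hr₂ hr₂'
  have hr₁0 : 0 < r₁ := by linarith
  have hr₂0 : 0 < r₂ := by linarith
  -- comparison tool
  have comp : ∀ (A B : ℕ → ℝ), (∀ k, 0 ≤ A k) → (∀ k, 0 ≤ B k) →
      (∀ k, A k ≤ ((k : ℝ) + 1) ^ 4 * r₁ ^ k) → (∀ k, B k ≤ ((k : ℝ) + 1) ^ 4 * r₂ ^ k) →
      Summable (fun p : ℕ × ℕ => ‖a p.1 p.2‖ * (A p.1 * B p.2)) := by
    intro A B hA hB hA' hB'
    refine Summable.of_nonneg_of_le
      (fun p => mul_nonneg (norm_nonneg _) (mul_nonneg (hA _) (hB _))) (fun p => ?_) hM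
    exact mul_le_mul_of_nonneg_left (mul_le_mul (hA' _) (hB' _) (hB _) (by positivity))
      (norm_nonneg _)
  have p1 : ∀ k : ℕ, ‖x‖ ^ k ≤ ((k : ℝ) + 1) ^ 4 * r₁ ^ k := fun k => by
    have h3 := pow_le_pow_left₀ (norm_nonneg x) hx.le k
    have h4 := one_le_weight k
    nlinarith [pow_pos hr₁0 k]
  have p2 : ∀ k : ℕ, ‖y‖ ^ k ≤ ((k : ℝ) + 1) ^ 4 * r₂ ^ k := fun k => by
    have h3 := pow_le_pow_left₀ (norm_nonneg y) hy.le k
    have h4 := one_le_weight k
    nlinarith [pow_pos hr₂0 k]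
  have q1 : ∀ k : ℕ, r₁ ^ k ≤ ((k : ℝ) + 1) ^ 4 * r₁ ^ k := fun k => by
    have h4 := one_le_weight k
    nlinarith [pow_pos hr₁0 k]
  have q2 : ∀ k : ℕ, r₂ ^ k ≤ ((k : ℝ) + 1) ^ 4 * r₂ ^ k := fun k => by
    have h4 := one_le_weight k
    nlinarith [pow_pos hr₂0 k]
  have d1 : ∀ k : ℕ, (k : ℝ) * ‖x‖ ^ (k - 1) ≤ ((k : ℝ) + 1) ^ 4 * r₁ ^ k := fun k => by
    refine le_trans ?_ (weight1 hr₁ k)
    gcongr
  have n0 : ∀ k : ℕ, (0 : ℝ) ≤ k := fun k => Nat.cast_nonneg k
  -- values as sums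
  have val1 : ∀ t : ℂ, ‖t‖ < r₁ → f t y = ∑' p : ℕ × ℕ, (a p.1 p.2 * y ^ p.2) * t ^ p.1 := by
    intro t ht
    rw [← (hf t y (ht.trans hr₁') (hy.trans hr₂')).tsum_eq]
    exact tsum_congr fun p => by ring
  have val2 : ∀ t : ℂ, ‖t‖ < r₂ → f x t = ∑' p : ℕ × ℕ, (a p.1 p.2 * x ^ p.1) * t ^ p.2 := by
    intro t ht
    rw [← (hf x t (hx.trans hr₁') (ht.trans hr₂')).tsum_eq]
  refine ⟨?_, ?_, ?_⟩
  · -- first variable twice
    have e1 : ∀ s : ℂ, ‖s‖ < r₁ → deriv (fun t => f t y) s =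
        ∑' p : ℕ × ℕ, (a p.1 p.2 * y ^ p.2 * p.1) * s ^ (p.1 - 1) := by
      intro s hs
      have h3 := hasDeriv (fun p : ℕ × ℕ => a p.1 p.2 * y ^ p.2) (fun p => p.1) hr₁0
        ((comp (fun k => r₁ ^ k) (fun k => ‖y‖ ^ k) (fun k => by positivity)
          (fun k => by positivity) q1 p2).congr fun p => by rw [norm_mul, norm_pow]; ring)
        ((comp (fun k => (k : ℝ) * r₁ ^ (k - 1)) (fun k => ‖y‖ ^ k) (fun k => by positivity)
          (fun k => by positivity) (fun k => weight1 hr₁ k) p2).congr fun p => by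
            rw [norm_mul, norm_pow]; ring) hs
      have h4 : HasDerivAt (fun t => f t y) (∑' p : ℕ × ℕ, a p.1 p.2 * y ^ p.2 *
          (p.1 * s ^ (p.1 - 1))) s := by
        refine h3.congr_of_eventuallyEq ?_
        filter_upwards [Metric.isOpen_ball.mem_nhds (by simpa using hs :
          s ∈ Metric.ball (0 : ℂ) r₁)] with t ht
        exact val1 t (by simpa using ht)
      rw [h4.deriv]
      exact tsum_congr fun p => by ring
    have h3 := hasDeriv (fun p : ℕ × ℕ => a p.1 p.2 * y ^ p.2 * p.1) (fun p => p.1 - 1) hr₁0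
        ((comp (fun k => (k : ℝ) * r₁ ^ (k - 1)) (fun k => ‖y‖ ^ k) (fun k => by positivity)
          (fun k => by positivity) (fun k => weight1 hr₁ k) p2).congr fun p => by
            rw [norm_mul, norm_mul, norm_pow, Complex.norm_natCast]; ring)
        ((comp (fun k => (k : ℝ) * (((k - 1 : ℕ) : ℝ) * r₁ ^ (k - 1 - 1))) (fun k => ‖y‖ ^ k)
          (fun k => by positivity) (fun k => by positivity) (fun k => weight2 hr₁ k) p2).congr
          fun p => by rw [norm_mul, norm_mul, norm_pow, Complex.norm_natCast]; ring) hx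
    have h4 : HasDerivAt (fun s => deriv (fun t => f t y) s) (∑' p : ℕ × ℕ,
        a p.1 p.2 * y ^ p.2 * p.1 * ((p.1 - 1 : ℕ) * x ^ (p.1 - 1 - 1))) x := by
      refine h3.congr_of_eventuallyEq ?_
      filter_upwards [Metric.isOpen_ball.mem_nhds (by simpa using hx :
        x ∈ Metric.ball (0 : ℂ) r₁)] with t ht
      exact e1 t (by simpa using ht)
    rw [h4.deriv]
    exact tsum_congr fun p => by ring
  · -- mixed
    have e1 : ∀ t : ℂ, ‖t‖ < r₂ → deriv (fun s => f s t) x =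
        ∑' p : ℕ × ℕ, (a p.1 p.2 * (p.1 * x ^ (p.1 - 1))) * t ^ p.2 := by
      intro t ht
      have pt : ∀ k : ℕ, ‖t‖ ^ k ≤ ((k : ℝ) + 1) ^ 4 * r₂ ^ k := fun k => by
        have h3 := pow_le_pow_left₀ (norm_nonneg t) ht.le k
        have h4 := one_le_weight k
        nlinarith [pow_pos hr₂0 k]
      have h3 := hasDeriv (fun p : ℕ × ℕ => a p.1 p.2 * t ^ p.2) (fun p => p.1) hr₁0
        ((comp (fun k => r₁ ^ k) (fun k => ‖t‖ ^ k) (fun k => by positivity)
          (fun k => by positivity) q1 pt).congr fun p => by rw [norm_mul, norm_pow]; ring)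
        ((comp (fun k => (k : ℝ) * r₁ ^ (k - 1)) (fun k => ‖t‖ ^ k) (fun k => by positivity)
          (fun k => by positivity) (fun k => weight1 hr₁ k) pt).congr fun p => by
            rw [norm_mul, norm_pow]; ring) hx
      have h4 : HasDerivAt (fun s => f s t) (∑' p : ℕ × ℕ, a p.1 p.2 * t ^ p.2 *
          (p.1 * x ^ (p.1 - 1))) x := by
        refine h3.congr_of_eventuallyEq ?_
        filter_upwards [Metric.isOpen_ball.mem_nhds (by simpa using hx :
          x ∈ Metric.ball (0 : ℂ) r₁)] with s hs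
        rw [← (hf s t ((by simpa using hs : ‖s‖ < r₁).trans hr₁') (ht.trans hr₂')).tsum_eq]
        exact tsum_congr fun p => by ring
      rw [h4.deriv]
      exact tsum_congr fun p => by ring
    have h3 := hasDeriv (fun p : ℕ × ℕ => a p.1 p.2 * (p.1 * x ^ (p.1 - 1))) (fun p => p.2) hr₂0
        ((comp (fun k => (k : ℝ) * ‖x‖ ^ (k - 1)) (fun k => r₂ ^ k) (fun k => by positivity)
          (fun k => by positivity) d1 q2).congr fun p => by
            rw [norm_mul, norm_mul, norm_pow, Complex.norm_natCast]; ring)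
        ((comp (fun k => (k : ℝ) * ‖x‖ ^ (k - 1)) (fun k => (k : ℝ) * r₂ ^ (k - 1))
          (fun k => by positivity) (fun k => by positivity) d1 (fun k => weight1 hr₂ k)).congr
          fun p => by rw [norm_mul, norm_mul, norm_pow, Complex.norm_natCast]; ring) hy
    have h4 : HasDerivAt (fun t => deriv (fun s => f s t) x) (∑' p : ℕ × ℕ,
        a p.1 p.2 * (p.1 * x ^ (p.1 - 1)) * (p.2 * y ^ (p.2 - 1))) y := by
      refine h3.congr_of_eventuallyEq ?_
      filter_upwards [Metric.isOpen_ball.mem_nhds (by simpa using hy :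
        y ∈ Metric.ball (0 : ℂ) r₂)] with t ht
      exact e1 t (by simpa using ht)
    rw [h4.deriv]
    exact tsum_congr fun p => by ring
  · -- second variable twice
    have e1 : ∀ s : ℂ, ‖s‖ < r₂ → deriv (fun t => f x t) s =
        ∑' p : ℕ × ℕ, (a p.1 p.2 * x ^ p.1 * p.2) * s ^ (p.2 - 1) := by
      intro s hs
      have h3 := hasDeriv (fun p : ℕ × ℕ => a p.1 p.2 * x ^ p.1) (fun p => p.2) hr₂0
        ((comp (fun k => ‖x‖ ^ k) (fun k => r₂ ^ k) (fun k => by positivity)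
          (fun k => by positivity) p1 q2).congr fun p => by rw [norm_mul, norm_pow]; ring)
        ((comp (fun k => ‖x‖ ^ k) (fun k => (k : ℝ) * r₂ ^ (k - 1)) (fun k => by positivity)
          (fun k => by positivity) p1 (fun k => weight1 hr₂ k)).congr fun p => by
            rw [norm_mul, norm_pow]; ring) hs
      have h4 : HasDerivAt (fun t => f x t) (∑' p : ℕ × ℕ, a p.1 p.2 * x ^ p.1 *
          (p.2 * s ^ (p.2 - 1))) s := by
        refine h3.congr_of_eventuallyEq ?_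
        filter_upwards [Metric.isOpen_ball.mem_nhds (by simpa using hs :
          s ∈ Metric.ball (0 : ℂ) r₂)] with t ht
        exact val2 t (by simpa using ht)
      rw [h4.deriv]
      exact tsum_congr fun p => by ring
    have h3 := hasDeriv (fun p : ℕ × ℕ => a p.1 p.2 * x ^ p.1 * p.2) (fun p => p.2 - 1) hr₂0
        ((comp (fun k => ‖x‖ ^ k) (fun k => (k : ℝ) * r₂ ^ (k - 1)) (fun k => by positivity)
          (fun k => by positivity) p1 (fun k => weight1 hr₂ k)).congr fun p => by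
            rw [norm_mul, norm_mul, norm_pow, Complex.norm_natCast]; ring)
        ((comp (fun k => ‖x‖ ^ k) (fun k => (k : ℝ) * (((k - 1 : ℕ) : ℝ) * r₂ ^ (k - 1 - 1)))
          (fun k => by positivity) (fun k => by positivity) p1 (fun k => weight2 hr₂ k)).congr
          fun p => by rw [norm_mul, norm_mul, norm_pow, Complex.norm_natCast]; ring) hy
    have h4 : HasDerivAt (fun s => deriv (fun t => f x t) s) (∑' p : ℕ × ℕ,
        a p.1 p.2 * x ^ p.1 * p.2 * ((p.2 - 1 : ℕ) * y ^ (p.2 - 1 - 1))) y := by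
      refine h3.congr_of_eventuallyEq ?_
      filter_upwards [Metric.isOpen_ball.mem_nhds (by simpa using hy :
        y ∈ Metric.ball (0 : ℂ) r₂)] with t ht
      exact e1 t (by simpa using ht)
    rw [h4.deriv]
    exact tsum_congr fun p => by ring

end series

/-- **Main result.** Let `R₁, R₂ > 1`, let `f(w₁, w₂) = ∑ a_{kj} w₁^k w₂^j` converge at every point of
the open polydisc of radii `R₁, R₂`, and let `1 ≤ ρ_i < R_i`. Then there is `C` with
`|E_n(f)(w₁, w₂)| ≤ C n^(-2)` for all `n ≥ 1` and all `|w₁| ≤ ρ₁`, `|w₂| ≤ ρ₂`. -/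
theorem result (R₁ R₂ : ℝ) (_h₁ : 1 < R₁) (_h₂ : 1 < R₂) (a : ℕ → ℕ → ℂ) (f : ℂ → ℂ → ℂ)
    (hf : ∀ w₁ w₂ : ℂ, ‖w₁‖ < R₁ → ‖w₂‖ < R₂ →
      HasSum (fun p : ℕ × ℕ => a p.1 p.2 * w₁ ^ p.1 * w₂ ^ p.2) (f w₁ w₂))
    (ρ₁ ρ₂ : ℝ) (hρ₁ : 1 ≤ ρ₁) (hρ₁' : ρ₁ < R₁) (hρ₂ : 1 ≤ ρ₂) (hρ₂' : ρ₂ < R₂) :
    ∃ C : ℝ, ∀ n : ℕ, 1 ≤ n → ∀ w₁ w₂ : ℂ, ‖w₁‖ ≤ ρ₁ → ‖w₂‖ ≤ ρ₂ →
      ‖remainder n f w₁ w₂‖ ≤ C / (n : ℝ) ^ 2 := by
  obtain ⟨r₁, hr₁, hr₁'⟩ := exists_between hρ₁'
  obtain ⟨r₂, hr₂, hr₂'⟩ := exists_between hρ₂'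
  have hr₁1 : 1 ≤ r₁ := by linarith
  have hr₂1 : 1 ≤ r₂ := by linarith
  have hM := master hf hr₁1 hr₁' hr₂1 hr₂'
  refine ⟨3 / 4 * ∑' p : ℕ × ℕ, ‖a p.1 p.2‖ * ((((p.1 : ℝ) + 1) ^ 4 * r₁ ^ p.1) *
      (((p.2 : ℝ) + 1) ^ 4 * r₂ ^ p.2)), fun n hn x y hx hy => ?_⟩
  have hn0 : (0 : ℝ) < n := by exact_mod_cast hn
  have hx' : ‖x‖ < r₁ := by linarith
  have hy' : ‖y‖ < r₂ := by linarith
  obtain ⟨e1, e2, e3⟩ := derivs hf hr₁1 hr₁' hr₂1 hr₂' hx' hy'
  have sm : ∀ G : ℕ × ℕ → ℂ, (∀ p, ‖G p‖ ≤ (((p.1 : ℝ) + 1) ^ 4 * r₁ ^ p.1) *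
      (((p.2 : ℝ) + 1) ^ 4 * r₂ ^ p.2)) → Summable (fun p : ℕ × ℕ => a p.1 p.2 * G p) := by
    intro G hG
    refine Summable.of_norm_bounded hM fun p => ?_
    rw [norm_mul]
    exact mul_le_mul_of_nonneg_left (hG p) (norm_nonneg _)
  have p1 : ∀ k : ℕ, ‖x‖ ^ k ≤ ((k : ℝ) + 1) ^ 4 * r₁ ^ k := fun k => by
    have h3 := pow_le_pow_left₀ (norm_nonneg x) hx'.le k
    have h4 := one_le_weight k
    nlinarith [pow_pos (by linarith : 0 < r₁) k]
  have p2 : ∀ k : ℕ, ‖y‖ ^ k ≤ ((k : ℝ) + 1) ^ 4 * r₂ ^ k := fun k => by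
    have h3 := pow_le_pow_left₀ (norm_nonneg y) hy'.le k
    have h4 := one_le_weight k
    nlinarith [pow_pos (by linarith : 0 < r₂) k]
  have d1 : ∀ k : ℕ, (k : ℝ) * ‖x‖ ^ (k - 1) ≤ ((k : ℝ) + 1) ^ 4 * r₁ ^ k := fun k => by
    refine le_trans ?_ (weight1 hr₁1 k)
    gcongr
  have d2 : ∀ k : ℕ, (k : ℝ) * ‖y‖ ^ (k - 1) ≤ ((k : ℝ) + 1) ^ 4 * r₂ ^ k := fun k => by
    refine le_trans ?_ (weight1 hr₂1 k)
    gcongr
  have dd1 : ∀ k : ℕ, (k : ℝ) * (((k - 1 : ℕ) : ℝ) * ‖x‖ ^ (k - 1 - 1)) ≤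
      ((k : ℝ) + 1) ^ 4 * r₁ ^ k := fun k => by
    refine le_trans ?_ (weight2 hr₁1 k)
    gcongr
  have dd2 : ∀ k : ℕ, (k : ℝ) * (((k - 1 : ℕ) : ℝ) * ‖y‖ ^ (k - 1 - 1)) ≤
      ((k : ℝ) + 1) ^ 4 * r₂ ^ k := fun k => by
    refine le_trans ?_ (weight2 hr₂1 k)
    gcongr
  have s1 := (sm (fun p => p.1 * ((p.1 - 1 : ℕ) * x ^ (p.1 - 1 - 1)) * y ^ p.2) fun p => by
    rw [norm_mul, norm_mul, norm_mul, norm_pow, norm_pow, Complex.norm_natCast,
      Complex.norm_natCast]
    exact mul_le_mul (dd1 _) (p2 _) (by positivity) (by positivity)).hasSum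
  have s2 := (sm (fun p => p.1 * x ^ (p.1 - 1) * (p.2 * y ^ (p.2 - 1))) fun p => by
    rw [norm_mul, norm_mul, norm_mul, norm_pow, norm_pow, Complex.norm_natCast,
      Complex.norm_natCast]
    exact mul_le_mul (d1 _) (d2 _) (by positivity) (by positivity)).hasSum
  have s3 := (sm (fun p => x ^ p.1 * (p.2 * ((p.2 - 1 : ℕ) * y ^ (p.2 - 1 - 1)))) fun p => by
    rw [norm_mul, norm_mul, norm_mul, norm_pow, norm_pow, Complex.norm_natCast,
      Complex.norm_natCast]
    exact mul_le_mul (p1 _) (dd2 _) (by positivity) (by positivity)).hasSum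
  rw [← e1] at s1
  rw [← e2] at s2
  rw [← e3] at s3
  have s0 := hf x y (hx'.trans hr₁') (hy'.trans hr₂')
  have sB : HasSum (fun p : ℕ × ℕ => a p.1 p.2 * bernstein n (fun s t => s ^ p.1 * t ^ p.2) x y)
      (bernstein n f x y) := by
    unfold bernstein
    have h3 : ∀ p : ℕ × ℕ, a p.1 p.2 * ∑ k ∈ range (n + 1), ∑ j ∈ range (n - k + 1),
        ((n.factorial : ℂ) / (k.factorial * j.factorial * (n - k - j).factorial)) *
        x ^ k * y ^ j * (1 - x - y) ^ (n - k - j) * (((k : ℂ) / n) ^ p.1 * ((j : ℂ) / n) ^ p.2) =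
        ∑ k ∈ range (n + 1), ∑ j ∈ range (n - k + 1),
        ((n.factorial : ℂ) / (k.factorial * j.factorial * (n - k - j).factorial)) *
        x ^ k * y ^ j * (1 - x - y) ^ (n - k - j) *
          (a p.1 p.2 * ((k : ℂ) / n) ^ p.1 * ((j : ℂ) / n) ^ p.2) := by
      intro p
      rw [Finset.mul_sum]
      apply Finset.sum_congr rfl; intro k _
      rw [Finset.mul_sum]
      apply Finset.sum_congr rfl; intro j _
      ring
    simp only [h3]
    apply hasSum_sum
    intro k hk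
    apply hasSum_sum
    intro j hj
    apply HasSum.mul_left
    have hk' : k ≤ n := Nat.lt_succ_iff.1 (Finset.mem_range.1 hk)
    have hj' : j ≤ n := (Nat.lt_succ_iff.1 (Finset.mem_range.1 hj)).trans (Nat.sub_le _ _)
    apply hf
    · rw [norm_div, Complex.norm_natCast, Complex.norm_natCast]
      have : (k : ℝ) / n ≤ 1 := by rw [div_le_one hn0]; exact_mod_cast hk'
      linarith
    · rw [norm_div, Complex.norm_natCast, Complex.norm_natCast]
      have : (j : ℝ) / n ≤ 1 := by rw [div_le_one hn0]; exact_mod_cast hj'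
      linarith
  have sE : HasSum (fun p : ℕ × ℕ => a p.1 p.2 * EE n p.1 p.2 x y) (remainder n f x y) := by
    have h3 := (sB.sub s0).sub ((((s1.mul_left (x * (1 - x))).sub (s2.mul_left (2 * x * y))).add
      (s3.mul_left (y * (1 - y)))).mul_left (1 / (2 * (n : ℂ))))
    unfold remainder
    have h4 : (fun p : ℕ × ℕ => a p.1 p.2 * EE n p.1 p.2 x y) = fun b : ℕ × ℕ =>
        a b.1 b.2 * bernstein n (fun s t => s ^ b.1 * t ^ b.2) x y - a b.1 b.2 * x ^ b.1 * y ^ b.2 -
        1 / (2 * (n : ℂ)) *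
        (x * (1 - x) * (a b.1 b.2 * (b.1 * ((b.1 - 1 : ℕ) * x ^ (b.1 - 1 - 1)) * y ^ b.2)) -
        2 * x * y * (a b.1 b.2 * (b.1 * x ^ (b.1 - 1) * (b.2 * y ^ (b.2 - 1)))) +
        y * (1 - y) * (a b.1 b.2 * (x ^ b.1 * (b.2 * ((b.2 - 1 : ℕ) * y ^ (b.2 - 1 - 1)))))) := by
      funext b
      unfold EE DD
      ring
    rw [h4]
    exact h3
  rw [← sE.tsum_eq]
  have hb : ∀ p : ℕ × ℕ, ‖a p.1 p.2 * EE n p.1 p.2 x y‖ ≤ 3 / 4 / (n : ℝ) ^ 2 *
      (‖a p.1 p.2‖ * ((((p.1 : ℝ) + 1) ^ 4 * r₁ ^ p.1) * (((p.2 : ℝ) + 1) ^ 4 * r₂ ^ p.2))) := by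
    rintro ⟨k, j⟩
    simp only
    rw [norm_mul]
    have h3 := norm_EE_le hn k j hr₁1 hr₂1 hx'.le hy'.le
    have h4 : gam n (k + j) ^ 2 ≤ 1 / 4 / (n : ℝ) ^ 2 * (((k : ℝ) + 1) ^ 4 * ((j : ℝ) + 1) ^ 4) := by
      have hk0 : (0 : ℝ) ≤ k := Nat.cast_nonneg k
      have hj0 : (0 : ℝ) ≤ j := Nat.cast_nonneg j
      have h5 : gam n (k + j) ≤ (((k : ℝ) + 1) * ((j : ℝ) + 1)) ^ 2 / (2 * n) := by
        unfold gam
        apply div_le_div_of_nonneg_right _ (by positivity)
        push_cast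
        nlinarith [mul_nonneg hk0 hj0, mul_nonneg (mul_nonneg hk0 hj0) hk0,
          mul_nonneg (mul_nonneg hk0 hj0) hj0, mul_nonneg (mul_nonneg hk0 hj0) (mul_nonneg hk0 hj0)]
      have h6 := pow_le_pow_left₀ (gam_nonneg n (k + j)) h5 2
      refine h6.trans (le_of_eq ?_)
      field_simp
      ring
    calc ‖a k j‖ * ‖EE n k j x y‖ ≤ ‖a k j‖ * (3 * gam n (k + j) ^ 2 * (r₁ ^ k * r₂ ^ j)) :=
          mul_le_mul_of_nonneg_left h3 (norm_nonneg _)
      _ ≤ ‖a k j‖ * (3 * (1 / 4 / (n : ℝ) ^ 2 * (((k : ℝ) + 1) ^ 4 * ((j : ℝ) + 1) ^ 4)) *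
          (r₁ ^ k * r₂ ^ j)) := by gcongr
      _ = _ := by ring
  refine (tsum_of_norm_bounded (hM.mul_left (3 / 4 / (n : ℝ) ^ 2)).hasSum hb).trans (le_of_eq ?_)
  rw [tsum_mul_left]
  ring

end Pool.Agent.Results.MP_814f17_an.Voronovskaja
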